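import Pool.Agent.H75.PRL.S6
import Pool.Agent.H75.PRL.S3
import Pool.Agent.H75.PRL.S1
import Pool.Agent.H40.PRL.TYQ
import Pool.Agent.H16.AVS.CLE
import Pool.Agent.H53.AVS.CPP
import Pool.Agent.H16.AVS.SEH

/-!
# The Poonen-Rains law: the types of a class, and reciprocity
-/

set_option autoImplicit false

namespace Pool.PRL

open Polynomial Matrix Pool.AVR Pool.AVS Pool.RZ

namespace QRR

variable {F : Type} [Field F]

theorem coprime_of_dvd (f : F[X] × F[X] × F[X]) {h h' s : (RatFunc F)[X]}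
    (hc : IsCoprime h (cubK f)) (hd : cubK f ∣ h - h' * s ^ 2) : IsCoprime s (cubK f) := by
  obtain ⟨r, hr⟩ := hd
  obtain ⟨a, b, hab⟩ := hc
  exact ⟨a * h' * s, b + a * r, by linear_combination hab - a * hr⟩

theorem cases4 : ∀ z : Ty, z = (0, 0) ∨ z = (0, 1) ∨ z = (1, 0) ∨ z = (1, 1) := by decide

end QRR

open QRR in
/-- The number of primes of type `(1, 1)` is even, and the types are well defined. -/
theorem qrr (hTYQ : TYQStmt) (hTYM : TYMStmt) (hCLA : CLAStmt) (hHRS : HRSStmt)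
    (hLCC : LCCStmt) (hLBB : LBBStmt) (hUSE : USEStmt) (hINF : INFStmt) (hEIL : EILStmt)
    (hOAL : OALStmt) : QRRStmt := by
  have hCLE : CLEStmt := Pool.Agent.H16.AVS.cle_thm
  have hCPP : CPPStmt := Pool.AVS.cpp_thm
  intro F _ _ h2 n T hn hT f hf ξ hξ
  obtain ⟨u, h, hξu, hu, hN, hUS⟩ := hξ
  obtain ⟨⟨hFam, hsq, hdeg⟩, hT12, hNR⟩ := hf
  have hTm : ∀ P ∈ T, P.Monic ∧ Irreducible P := fun P hP => ⟨(hT P hP).1, (hT P hP).2.1⟩
  have hc : IsCoprime h (cubK f) := Pool.Agent.H16.AVS.isCoprime_of_unit f h u hu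
  -- the types of the class and of `h`
  have hiff : ∀ P ∈ T, ∀ x : Ty, TyC f P x ξ ↔ Typ P f x h := by
    intro P hP x
    constructor
    · rintro ⟨u₁, h₁, hξ₁, hu₁, hx⟩
      obtain ⟨s, hs⟩ := (hCLE F f h h₁ u u₁ hu hu₁).1 (hξu.trans hξ₁.symm)
      exact (hTYM F P f (hTm P hP).1 (hTm P hP).2).2.1 x h₁ h s hx (coprime_of_dvd f hc hs) hs
    · intro hx
      exact ⟨u, h, hξu, hu, hx⟩
  obtain ⟨ε, hε, hdet⟩ := TYQ.det_form f h hc hN
  have hsym : (g0 f h)ᵀ = g0 f h := TYQ.gr0_symm _ _ _ _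
  -- lattices
  have hUE : ∀ P : F[X], Irreducible P → US P f h → EL (IP P) (g0 f h) := by
    intro P hP hU
    obtain ⟨g, hg, hg1, -⟩ := hUSE F P f h hP hU
    exact ⟨g, hg, hg1⟩
  have hEl : ∀ P ∈ T, ∀ x : Ty, Typ P f x h → x ≠ (1, 1) → EL (IP P) (g0 f h) := by
    intro P hP x hx hne
    obtain ⟨hPm, hPi⟩ := hTm P hP
    rcases cases4 x with rfl | rfl | rfl | rfl
    · exact hUE P hPi (((hTYM F P f hPm hPi).2.2.1 (hT12 P hP) h).2 (Or.inl hx))
    · exact hUE P hPi (((hTYM F P f hPm hPi).2.2.1 (hT12 P hP) h).2 (Or.inr hx))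
    · obtain ⟨g, hg, hg1, -⟩ := hLBB F h2 P f hPm hPi h hc hN hx P dvd_rfl (by
        intro hd
        rw [pow_two] at hd
        exact hPi.not_isUnit (isUnit_of_dvd_one
          ((mul_dvd_mul_iff_left hPi.ne_zero).1 (by rwa [mul_one]))))
      exact ⟨g, hg, hg1⟩
    · exact absurd rfl hne
  have hEO : ∀ P : F[X], P.Monic → Irreducible P → EL (IP P) (g0 f h) → ¬ OAP P (g0 f h) := by
    intro P hPm hPi hE hO
    let v : IsDedekindDomain.HeightOneSpectrum F[X] :=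
      { asIdeal := Ideal.span {P}
        isPrime := (Ideal.span_singleton_prime hPi.ne_zero).2 hPi.prime
        ne_bot := by
          rw [Ne, Ideal.span_singleton_eq_bot]
          exact hPi.ne_zero }
    have hcomp := hCPP F h2 P hPm hPi v rfl
    exact hOAL F P hPi _ _ _ hcomp (g0 f h) hsym hO
      (hEIL F (IP P) _ _ _ _ hcomp (g0 f h) ε hsym hε hdet hE)
  have hex : ∀ P ∈ T, ∃ x : Ty, Typ P f x h := fun P hP =>
    hCLA F h2 P f (hTm P hP).1 (hTm P hP).2 (hT12 P hP) h hc hN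
  refine ⟨?_, ?_⟩
  · intro P hP
    obtain ⟨x, hx⟩ := hex P hP
    refine ⟨x, (hiff P hP x).2 hx, ?_⟩
    intro y hy
    exact hTYQ F h2 P f (hTm P hP).1 (hTm P hP).2 h hc hN y x ((hiff P hP y).1 hy) hx
  · have hset : {P | P ∈ T ∧ TyC f P (1, 1) ξ} = {P | P ∈ T ∧ OAP P (g0 f h)} := by
      ext P
      constructor
      · rintro ⟨hP, hx⟩
        exact ⟨hP, hLCC F h2 P f (hTm P hP).1 (hTm P hP).2 h hc hN ((hiff P hP _).1 hx)⟩
      · rintro ⟨hP, hO⟩
        refine ⟨hP, ?_⟩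
        obtain ⟨x, hx⟩ := hex P hP
        by_cases hx1 : x = (1, 1)
        · exact (hiff P hP _).2 (hx1 ▸ hx)
        · exact absurd hO (hEO P (hTm P hP).1 (hTm P hP).2 (hEl P hP x hx hx1))
    rw [hset]
    refine hHRS F h2 T (g0 f h) ε hsym hε hdet hTm ?_ ?_ ?_
    · intro P hPm hPi hPT
      exact hUE P hPi (hUS P hPm hPi hPT)
    · obtain ⟨g, hg, hg1, -⟩ := hINF F h2 n f hFam hNR h hc hN
      exact ⟨g, hg, hg1⟩
    · intro P hP
      obtain ⟨x, hx⟩ := hex P hP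
      by_cases hx1 : x = (1, 1)
      · exact Or.inr (hLCC F h2 P f (hTm P hP).1 (hTm P hP).2 h hc hN (hx1 ▸ hx))
      · exact Or.inl (hEl P hP x hx hx1)

end Pool.PRL
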